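import Pool.Agent.Lib.MP_774a52_lc.AP2

namespace Pool.Agent.Results.MP_774a52_lc.AllPatterns

open Pool.Agent.Lib.MP_774a52_lc Filter

theorem result (α : Type) [Primcodable α] [Nonempty α] : ∃ c : ℕ → ℕ → α, Computable₂ c ∧
    (∀ x, ∃ i, ∃ y₀, ∀ y ≥ y₀, c x y = i) ∧
    ∀ H : Set ℕ, H.Infinite →
      (∃ (l : ℕ) (p : Fin l → Fin l → α), ¬ ∃ x : Fin l → ℕ, StrictMono x ∧ (∀ i, x i ∈ H) ∧
        ∀ i j, i < j → c (x i) (x j) = p i j) →
      TuringReducible (chi H) (chi (jump ∅)) →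
        TuringReducible (chi (jump (jump ∅))) (chi (jump H)) ∧
        ∀ n ≥ 1, ¬ TuringEquivalent (chi (jump^[n] H)) (chi (jump^[n] ∅)) := by
  obtain ⟨a0⟩ := ‹Nonempty α›
  obtain ⟨c, hc, hlim, hH⟩ := AP.core
  refine ⟨fun x y => (Encodable.decode (α := α) (c x y)).getD a0, ?_, fun x => ?_, ?_⟩
  · exact (Primrec.option_getD.comp (Primrec.decode.comp hc) (Primrec.const a0)).to_comp
  · obtain ⟨a, h⟩ := hlim x
    obtain ⟨y0, h⟩ := eventually_atTop.1 h
    exact ⟨_, y0, fun y hy => by simp only [h y hy]; rfl⟩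
  · rintro H hinf ⟨l, p, hp⟩ h1
    have h2 : TuringReducible (chi (jump (jump ∅))) (chi (jump H)) := by
      by_contra h3
      obtain ⟨x, hx⟩ := hH H h1 h3 (fun i j => if h : i < l ∧ j < l then
        Encodable.encode (p ⟨i, h.1⟩ ⟨j, h.2⟩) else 0) l (fun _ => H)
        fun _ _ => ⟨hinf, TuringReducible.rfl⟩
      refine hp ⟨fun i => x i, fun i j hij => ((hx j j.2).2 i hij).1, fun i => (hx i i.2).1,
        fun i j hij => ?_⟩
      simp [((hx j j.2).2 i hij).2]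
    exact ⟨h2, High.not_low_of_high h2⟩

end Pool.Agent.Results.MP_774a52_lc.AllPatterns
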