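import Pool.Agent.Lib.MP_774a52_lc.NS6

namespace Pool.Agent.Results.MP_774a52_lc.NotSuperhigh

open Pool.Agent.Lib.MP_774a52_lc

theorem result (c : ℕ → ℕ → Fin 2) (hc : Computable₂ c)
    (hs : ∀ x, ∃ i, ∃ y₀, ∀ y ≥ y₀, c x y = i) :
    ∃ H : Set ℕ, H.Infinite ∧ (∃ i, ∀ x ∈ H, ∀ y ∈ H, x < y → c x y = i) ∧
      TuringReducible (chi H) (chi (jump ∅)) ∧
      (¬ ∃ f : ℕ → List (List Bool), Computable f ∧ ∀ x, (x ∈ jump (jump ∅) ↔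
        ∃ σ ∈ f x, ∀ i < σ.length, (σ.getD i false = true ↔ i ∈ jump H))) ∧
      ∀ (g : ℕ → ℕ) (ψ : ℕ →. ℕ), TuringReducible (fun x => Part.some (g x)) (chi (jump ∅)) →
        TuringReducible ψ (chi (jump ∅)) →
        ¬ ∀ x, ψ (Nat.pair x (Encodable.encode (tab (jump H) (g x)))) =
          chi (jump (jump ∅)) x := by
  obtain ⟨H, h1, h2, h3, h4⟩ := NS.main c hc hs
  refine ⟨H, h1, h2, h3, ?_, h4⟩
  rintro ⟨f, hf, h⟩
  obtain ⟨g, ψ, hg, hψ, h5⟩ := NS.tt_of (O := chi (jump ∅)) hf h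
  exact h4 g ψ hg hψ h5

end Pool.Agent.Results.MP_774a52_lc.NotSuperhigh
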